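import Pool.Agent.Helper43.GH.Defs2

/-!
Project GH, block BR: from pairs of compressions to the space.
-/

set_option linter.unusedSectionVars false
set_option linter.unusedVariables false

open Matrix Module

namespace GH

open MH

variable {n : Type*} [Fintype n] [DecidableEq n] {m : Type*} [Fintype m] [DecidableEq m]
  {k : Type*} [Fintype k] [DecidableEq k]

variable {L : Submodule ℂ (Matrix n n ℂ)} {ι : Type*} [Fintype ι] [DecidableEq ι] {e : ι → Matrix n n ℂ} {r : ι → ℕ}
  {w : ∀ i, Matrix n (Fin (r i)) ℂ} {v : ∀ i, Matrix (Fin (r i)) n ℂ}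

/-- scalar compression -/
private theorem sca68 (D : FD L e r w v) (i : ι) {x : Matrix n n ℂ} (hx : x ∈ L) (c : ℂ) :
    (∃ c' : ℂ, v i * x * w i + c • (1 : Matrix (Fin (r i)) (Fin (r i)) ℂ) = c' • (1 : Matrix (Fin (r i)) (Fin (r i)) ℂ)) ↔
      ∃ c' : ℂ, x * e i = c' • e i := by
  constructor
  · rintro ⟨c', hc'⟩
    refine ⟨c' - c, ?_⟩
    have h1 : v i * x * w i = (c' - c) • (1 : Matrix (Fin (r i)) (Fin (r i)) ℂ) := by
      rw [sub_smul, ← hc', add_sub_cancel_right]
    have h2 : e i * e i = e i := by
      rw [← D.wv i, Matrix.mul_assoc, ← Matrix.mul_assoc (v i), D.vw, Matrix.one_mul]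
    calc x * e i = x * (e i * e i) := by rw [h2]
      _ = e i * x * e i := by rw [← Matrix.mul_assoc, D.com i x hx]
      _ = w i * (v i * x * w i) * v i := by
          rw [← D.wv i]
          simp only [Matrix.mul_assoc]
      _ = (c' - c) • e i := by
          rw [h1, Matrix.mul_smul, Matrix.smul_mul, Matrix.mul_one, D.wv]
  · rintro ⟨c', hc'⟩
    refine ⟨c' + c, ?_⟩
    have h1 : v i * x * w i = c' • (1 : Matrix (Fin (r i)) (Fin (r i)) ℂ) := by
      calc v i * x * w i = v i * x * (w i * (v i * w i)) := by rw [D.vw, Matrix.mul_one]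
        _ = v i * (x * e i) * w i := by
            rw [← D.wv i]
            simp only [Matrix.mul_assoc]
        _ = c' • (v i * e i * w i) := by rw [hc', Matrix.mul_smul, Matrix.smul_mul]
        _ = c' • ((v i * w i) * (v i * w i)) := by
            rw [← D.wv i]
            simp only [Matrix.mul_assoc]
        _ = _ := by rw [D.vw, Matrix.one_mul]
    rw [h1, add_smul]

private theorem xw68 (D : FD L e r w v) (i : ι) {x : Matrix n n ℂ} (hx : x ∈ L) :
    x * w i = w i * (v i * x * w i) := by
  calc x * w i = x * (w i * (v i * w i)) := by rw [D.vw, Matrix.mul_one]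
    _ = (x * e i) * w i := by
        rw [← D.wv i]
        simp only [Matrix.mul_assoc]
    _ = (e i * x) * w i := by rw [D.com i x hx]
    _ = _ := by
        rw [← D.wv i]
        simp only [Matrix.mul_assoc]

private theorem vx68 (D : FD L e r w v) (i : ι) {x : Matrix n n ℂ} (hx : x ∈ L) :
    v i * x = (v i * x * w i) * v i := by
  calc v i * x = ((v i * w i) * v i) * x := by rw [D.vw, Matrix.one_mul]
    _ = v i * (e i * x) := by
        rw [← D.wv i]
        simp only [Matrix.mul_assoc]
    _ = v i * (x * e i) := by rw [D.com i x hx]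
    _ = _ := by
        rw [← D.wv i]
        simp only [Matrix.mul_assoc]

private theorem mem68 (i j : ι) {x : Matrix n n ℂ} (hx : x ∈ L) :
    (v i * x * w i, v j * x * w j) ∈ PP L (w i) (v i) (w j) (v j) := by
  refine ⟨x, hx, 0, 0, ?_⟩
  rw [zero_smul, zero_smul, add_zero, add_zero]

/-- BR: from pairs of compressions to the space -/
theorem FD.of_pair (D : FD L e r w v) {i j : ι} (hij : i ≠ j)
    (hp : Gra (PP L (w i) (v i) (w j) (v j)) →
      LinkT (PP L (w i) (v i) (w j) (v j)) ∨ LinkF (PP L (w i) (v i) (w j) (v j))) :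
    Prd L (e i) (e j) ∨ Prd L (e j) (e i) ∨ Lnk L (e i) (e j) := by
  by_cases hg : Gra (PP L (w i) (v i) (w j) (v j))
  · right; right
    rcases hp hg with ⟨T, hT0, hT⟩ | ⟨F, hF0, hF⟩
    · left
      refine ⟨w j * T * v i, ?_, ?_, ?_, ?_⟩
      · intro h
        apply hT0
        calc T = (v j * w j) * T * (v i * w i) := by rw [D.vw, D.vw, Matrix.one_mul, Matrix.mul_one]
          _ = v j * (w j * T * v i) * w i := by simp only [Matrix.mul_assoc]
          _ = 0 := by rw [h, Matrix.mul_zero, Matrix.zero_mul]
      · calc e j * (w j * T * v i) = w j * (v j * w j) * T * v i := by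
              rw [← D.wv j]
              simp only [Matrix.mul_assoc]
          _ = _ := by rw [D.vw, Matrix.mul_one]
      · calc w j * T * v i * e i = w j * T * ((v i * w i) * v i) := by
              rw [← D.wv i]
              simp only [Matrix.mul_assoc]
          _ = _ := by rw [D.vw, Matrix.one_mul]
      · intro x hx
        obtain ⟨c, hc⟩ := hT _ (mem68 i j hx)
        refine ⟨c, ?_⟩
        have e1 : x * (w j * T * v i) = w j * ((v j * x * w j) * T) * v i := by
          calc x * (w j * T * v i) = (x * w j) * T * v i := by simp only [Matrix.mul_assoc]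
            _ = w j * (v j * x * w j) * T * v i := by rw [xw68 D j hx]
            _ = _ := by simp only [Matrix.mul_assoc]
        have e2 : w j * T * v i * x = w j * (T * (v i * x * w i)) * v i := by
          calc w j * T * v i * x = w j * T * (v i * x) := by simp only [Matrix.mul_assoc]
            _ = w j * T * ((v i * x * w i) * v i) := by rw [← vx68 D i hx]
            _ = _ := by simp only [Matrix.mul_assoc]
        rw [e1, e2, ← Matrix.sub_mul, ← Matrix.mul_sub, hc, Matrix.mul_smul, Matrix.smul_mul]
    · right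
      refine ⟨(v j)ᵀ * F * v i, ?_, ?_, ?_, ?_⟩
      · intro h
        apply hF0
        calc F = (v j * w j)ᵀ * F * (v i * w i) := by
              rw [D.vw, D.vw, Matrix.transpose_one, Matrix.one_mul, Matrix.mul_one]
          _ = (w j)ᵀ * ((v j)ᵀ * F * v i) * w i := by
              rw [Matrix.transpose_mul]
              simp only [Matrix.mul_assoc]
          _ = 0 := by rw [h, Matrix.mul_zero, Matrix.zero_mul]
      · calc (e j)ᵀ * ((v j)ᵀ * F * v i) = ((v j)ᵀ * (v j * w j)ᵀ) * F * v i := by
              rw [← D.wv j, Matrix.transpose_mul, Matrix.transpose_mul]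
              simp only [Matrix.mul_assoc]
          _ = _ := by rw [D.vw, Matrix.transpose_one, Matrix.mul_one]
      · calc (v j)ᵀ * F * v i * e i = (v j)ᵀ * F * ((v i * w i) * v i) := by
              rw [← D.wv i]
              simp only [Matrix.mul_assoc]
          _ = _ := by rw [D.vw, Matrix.one_mul]
      · intro x hx
        obtain ⟨c, hc⟩ := hF _ (mem68 i j hx)
        refine ⟨c, ?_⟩
        have e1 : xᵀ * ((v j)ᵀ * F * v i) = (v j)ᵀ * ((v j * x * w j)ᵀ * F) * v i := by
          calc xᵀ * ((v j)ᵀ * F * v i) = (v j * x)ᵀ * F * v i := by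
                rw [Matrix.transpose_mul]
                simp only [Matrix.mul_assoc]
            _ = ((v j * x * w j) * v j)ᵀ * F * v i := by rw [← vx68 D j hx]
            _ = _ := by
                rw [Matrix.transpose_mul (v j * x * w j) (v j)]
                simp only [Matrix.mul_assoc]
        have e2 : (v j)ᵀ * F * v i * x = (v j)ᵀ * (F * (v i * x * w i)) * v i := by
          calc (v j)ᵀ * F * v i * x = (v j)ᵀ * F * (v i * x) := by simp only [Matrix.mul_assoc]
            _ = (v j)ᵀ * F * ((v i * x * w i) * v i) := by rw [← vx68 D i hx]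
            _ = _ := by simp only [Matrix.mul_assoc]
        rw [e1, e2, ← Matrix.add_mul, ← Matrix.mul_add, hc, Matrix.mul_smul, Matrix.smul_mul]
  · unfold Gra at hg
    push Not at hg
    obtain ⟨p, ⟨x, hx, c, d, rfl⟩, hpn⟩ := hg
    simp only at hpn
    rcases hpn with ⟨h1, h2⟩ | ⟨h1, h2⟩
    · right; left
      refine ⟨x, hx, ?_, ?_⟩
      · rintro ⟨c', hc'⟩
        obtain ⟨c'', h3⟩ := (sca68 D j hx d).2 ⟨c', hc'⟩
        exact h2 c'' h3
      · exact (sca68 D i hx c).1 h1
    · left
      refine ⟨x, hx, ?_, ?_⟩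
      · rintro ⟨c', hc'⟩
        obtain ⟨c'', h3⟩ := (sca68 D i hx c).2 ⟨c', hc'⟩
        exact h1 c'' h3
      · exact (sca68 D j hx d).1 h2

end GH
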